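import Mathlib
import Pool.Agent.TH905.VF.Gen

/-!
# Vojta's inequality for algebraic points on diagonal hypersurfaces

Let `k` be a number field (for example `ℚ`), `q ≥ 3`, `a_0, …, a_{q-1} ∈ k` nonzero and `m ≥ 1`. The
diagonal hypersurface `X_m : a_0 y_0 ^ m + … + a_{q-1} y_{q-1} ^ m = 0` in `ℙ^(q-1)` is smooth, of
dimension `q - 2`, with canonical divisor `(m - q) H`; let `D` be the divisor `y_0 ⋯ y_{q-1} = 0` on
`X_m` (it has normal crossings), and let `Z ⊂ X_m` be the proper closed subset of the points with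
`∑_{i ∈ I} a_i y_i ^ m = 0` for some nonempty `I ≠ {0, …, q-1}`.

We consider all points `P` of all `X_m`, `m ≥ 1`, not in `Z`, above the `k`-rational points
`x = (y_0 ^ m : … : y_{q-1} ^ m)` of the hyperplane `∑ a_i x_i = 0`; their degree over `k` is at most
`m ^ (q-1)` (for a fixed `m` these are points of bounded degree). Here `m h(P) = h(x)`.
Vojta's inequality with the term `ε m h(P)` is
`∑_{ν ∈ S} λ_D(P, ν) + (θ m - q) h(P) ≤ d_k(P) + c` for `θ = 1 - ε`. It holds for all `x` but
`O(B ^ (θ (1 - 1 / C) + δ))` of those of height at most `B`, where `C = binom(q, ⌊q/2⌋)`. In all there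
are about `B ^ (q-1)` points `x` of height at most `B`.
-/

set_option autoImplicit false

namespace Pool.Agent.Results.MP_651af7_nt.DiagonalHypersurfaces

open NumberField IsDedekindDomain LinearAlgebra.Projectivization

/-- The logarithmic height, relative to `k`, of the point with homogeneous coordinates `y` in the
extension `L` of `k` (for `k = ℚ` the absolute logarithmic height). -/
noncomputable def height (k : Type) {L : Type} [Field k] [NumberField k] [Field L] [NumberField L]
    [Algebra k L] {q : ℕ} (y : Fin q → L) : ℝ := Height.logHeight y / Module.finrank k L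

/-- The logarithmic discriminant `log |disc L| / [L : k] - log |disc k|`. -/
noncomputable def logDisc (k L : Type) [Field k] [NumberField k] [Field L] [NumberField L]
    [Algebra k L] : ℝ :=
  Real.log |(discr L : ℝ)| / Module.finrank k L - Real.log |(discr k : ℝ)|

/-- The local Weil function `∑ i, log (max_j |y_j| / |y_i|)` of the divisor `D`, for an absolute
value. -/
noncomputable def weil {L : Type} [Field L] {q : ℕ} (f : AbsoluteValue L ℝ) (y : Fin q → L) : ℝ :=
  ∑ i, Real.log ((⨆ j, f (y j)) / f (y i))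

/-- The proximity function `∑_{ν ∈ S} λ_D(P, ν)`, relative to `k`, where `S` consists of the
archimedean places and of the primes in the finite set `S`: the sum of the local Weil functions over
the infinite places `w` of `L` (with the factor `[L_w : ℝ]`) and over the primes of `L` above the
primes in `S` (with the absolute value `N(w) ^ (- ord_w)`), divided by `[L : k]`. -/
noncomputable def proximity {k L : Type} [Field k] [NumberField k] [Field L] [NumberField L]
    [Algebra k L] {q : ℕ} (S : Finset (HeightOneSpectrum (𝓞 k))) (y : Fin q → L) : ℝ :=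
  (∑ w : InfinitePlace L, (w.mult : ℝ) * weil w.1 y +
    ∑ᶠ w ∈ {w : HeightOneSpectrum (𝓞 L) | ∃ v ∈ S, w.asIdeal.LiesOver v.asIdeal},
      weil (FinitePlace.mk w).1 y) / Module.finrank k L

/-- For some `m ≥ 1` there are a number field `L` containing `k` and a point
`P = (y_0 : … : y_{q-1})` over `L` with `(y_i ^ m) = t x`, `t ≠ 0`, which violates
`∑_{ν ∈ S} λ_D(P, ν) + (θ m - q) h(P) ≤ d_k(L) + c`. -/
def Violates {k : Type} [Field k] [NumberField k] {q : ℕ} (S : Finset (HeightOneSpectrum (𝓞 k)))
    (θ c : ℝ) (x : Fin q → k) : Prop :=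
  ∃ (m : ℕ) (L : Type) (_ : Field L) (_ : NumberField L) (_ : Algebra k L) (y : Fin q → L) (t : L),
    1 ≤ m ∧ t ≠ 0 ∧ (∀ i, y i ^ m = t * algebraMap k L (x i)) ∧
      logDisc k L + c < proximity S y + (θ * m - q) * height k y

/-- The `k`-rational points `x` of the hyperplane `∑ a_i x_i = 0`, of height at most `B` and with no
vanishing subsum `∑_{i ∈ I} a_i x_i`, above which some point of some `X_m` violates the
inequality. -/
def exceptional {k : Type} [Field k] [NumberField k] {q : ℕ}
    (S : Finset (HeightOneSpectrum (𝓞 k))) (a : Fin q → k) (θ c B : ℝ) :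
    Set (ℙ k (Fin q → k)) :=
  {x | ∑ i, a i * x.rep i = 0 ∧
    (∀ I : Finset (Fin q), I.Nonempty → I ≠ Finset.univ → ∑ i ∈ I, a i * x.rep i ≠ 0) ∧
    x.mulHeight ≤ B ∧ Violates S θ c x.rep}

/-- **Vojta's inequality for algebraic points on diagonal hypersurfaces.** Let `k` be a number field,
`S` a finite set of primes of `k`, `q ≥ 3`, `a_i ∈ k` nonzero, `θ ≥ 0`, `c` real and `δ > 0`. For all
but `O(B ^ (θ (1 - 1 / binom(q, ⌊q/2⌋)) + δ))` points `x` of height at most `B` of the hyperplane
`∑ a_i x_i = 0` without vanishing subsums, ALL points `P` of ALL `X_m`, `m ≥ 1`, above `x` satisfy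
`∑_{ν ∈ S ∪ S_∞} λ_D(P, ν) + (θ m - q) h(P) ≤ d_k(P) + c`. For `θ = 1 - ε` it is Vojta's inequality
with the term `ε m h(P)`. -/
theorem result (k : Type) [Field k] [NumberField k] (q : ℕ) (hq : 3 ≤ q) (a : Fin q → k)
    (ha : ∀ i, a i ≠ 0) (S : Finset (HeightOneSpectrum (𝓞 k))) (θ c δ : ℝ) (hθ : 0 ≤ θ)
    (hδ : 0 < δ) :
    ∃ M : ℝ, ∀ B : ℝ, 1 ≤ B → (exceptional S a θ c B).Finite ∧
      ((exceptional S a θ c B).ncard : ℝ) ≤
        M * B ^ (θ * (1 - 1 / (q.choose (q / 2) : ℝ)) + δ) := by
  obtain ⟨M, hM⟩ := Pool.Agent.TH905.VF.hyp_main k q hq a ha S θ c δ hθ hδ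
  refine ⟨M, fun B hB => ?_⟩
  obtain ⟨h1, h2⟩ := hM B hB
  have hsub : exceptional S a θ c B ⊆ Pool.Agent.TH905.VF.E2 S a θ c B := by
    rintro x ⟨hx, hI, hB', m, L, i1, i2, i3, y, t, hm, ht, hy, hv⟩
    refine ⟨hx, hI, hB', m, L, i1, i2, i3, y, t, by omega, ht, hy, ?_⟩
    have h6 : Pool.Agent.TH905.VF.ld k L = logDisc k L := rfl
    have h7 : Pool.Agent.TH905.VF.ht k y = height k y := rfl
    have h8 : Pool.Agent.TH905.VF.prox S y = proximity S y := rfl
    rw [h6, h7, h8]
    linarith
  refine ⟨h1.subset hsub, le_trans ?_ h2⟩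
  exact_mod_cast Set.ncard_le_ncard hsub h1

end Pool.Agent.Results.MP_651af7_nt.DiagonalHypersurfaces
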