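import Pool.Agent.X123.MT.Fermat

/-!
# Vojta's inequality for all algebraic points of Fermat intersections above the rational points near
almost every target

Let `k` be a number field, `a_0, …, a_{q-1}` linear forms in `n + 1` variables over `k`, any `n + 1`
of them linearly independent, `q ≥ n + 1`, and `m ≥ 1`. The points `(y_0 : … : y_{q-1})` such that
`(y_0 ^ m : … : y_{q-1} ^ m) = (a_0(x) : … : a_{q-1}(x))` for some `x` in `ℙ^n` form a smooth complete
intersection `X_m` of dimension `n`; for `q = n + 2` it is a diagonal hypersurface. Its canonical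
divisor has the height `(m (q - n - 1) - q) h(P)`; `D` is the divisor `y_0 ⋯ y_{q-1} = 0`.

We consider all points `P` of all `X_m` above the points `(1 : x_1 : … : x_n)` of `ℙ^n(k)`, and
targets `ξ` in completions of `k ^ n`, or a point `ξ` of `ℝ ^ n`. For almost all `ξ` the proximity of
`x` to `ξ` is bounded by linear combinations of `m h(P)` and of the defect
`d_k(P) + q h(P) - λ_{D, S}(P)`; if `x` is near `ξ`, these bounds contain Vojta's inequality.
-/

set_option autoImplicit false

namespace Pool.Agent.Results.MP_651af7_nt.FermatPointsNearTargets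

open NumberField IsDedekindDomain MeasureTheory

/-- The value of the linear form with coefficients `a` at `x`. -/
def lin {k : Type} [Field k] {n : ℕ} (a x : Fin (n + 1) → k) : k := ∑ j, a j * x j

/-- The homogeneous coordinates `(1 : x_1 : … : x_n)`. -/
def point {k : Type} [Field k] {n : ℕ} (x : Fin n → k) : Fin (n + 1) → k := Fin.cons 1 x

/-- The logarithmic height, relative to `k`, of the point with homogeneous coordinates `y` in the
extension `L` of `k`. -/
noncomputable def height (k : Type) {L : Type} [Field k] [NumberField k] [Field L] [NumberField L]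
    [Algebra k L] {q : ℕ} (y : Fin q → L) : ℝ := Height.logHeight y / Module.finrank k L

/-- The logarithmic discriminant `log |disc L| / [L : k] - log |disc k|`. -/
noncomputable def logDisc (k L : Type) [Field k] [NumberField k] [Field L] [NumberField L]
    [Algebra k L] : ℝ :=
  Real.log |(discr L : ℝ)| / Module.finrank k L - Real.log |(discr k : ℝ)|

/-- The local Weil function `∑ i, log (max_j |y_j| / |y_i|)` of the divisor `D`, for an absolute
value. -/
noncomputable def weil {L : Type} [Field L] {q : ℕ} (f : AbsoluteValue L ℝ) (y : Fin q → L) : ℝ :=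
  ∑ i, Real.log ((⨆ j, f (y j)) / f (y i))

/-- The proximity function `∑_{ν ∈ S} λ_D(P, ν)`, relative to `k`, where `S` consists of the
archimedean places and of the primes in the finite set `S`: the sum of the local Weil functions over
the infinite places `w` of `L` (with the factor `[L_w : ℝ]`) and over the primes of `L` above the
primes in `S` (with the absolute value `N(w) ^ (- ord_w)`), divided by `[L : k]`. -/
noncomputable def proximity {k L : Type} [Field k] [NumberField k] [Field L] [NumberField L]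
    [Algebra k L] {q : ℕ} (S : Finset (HeightOneSpectrum (𝓞 k))) (y : Fin q → L) : ℝ :=
  (∑ w : InfinitePlace L, (w.mult : ℝ) * weil w.1 y +
    ∑ᶠ w ∈ {w : HeightOneSpectrum (𝓞 L) | ∃ v ∈ S, w.asIdeal.LiesOver v.asIdeal},
      weil (FinitePlace.mk w).1 y) / Module.finrank k L

/-- The point `P = (y_0 : … : y_{q-1})` over `L` lies on `X_m` above `(1 : x_1 : … : x_n)`. -/
def IsAbove {k L : Type} [Field k] [Field L] [Algebra k L] {n q : ℕ}
    (a : Fin q → Fin (n + 1) → k) (m : ℕ) (x : Fin n → k) (y : Fin q → L) : Prop :=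
  ∃ t : L, t ≠ 0 ∧ ∀ i, y i ^ m = t * algebraMap k L (lin (a i) (point x))

/-- The defect `d_k(P) + q h(P) - λ_{D, S}(P)`. -/
noncomputable def defect {k L : Type} [Field k] [NumberField k] [Field L] [NumberField L]
    [Algebra k L] {q : ℕ} (S : Finset (HeightOneSpectrum (𝓞 k))) (y : Fin q → L) : ℝ :=
  logDisc k L + q * height k y - proximity S y

/-- `1 - C(q - n, n + 1) / C(q, n + 1)` -/
noncomputable def rho (n q : ℕ) : ℝ := 1 - ((q - n).choose (n + 1) : ℝ) / (q.choose (n + 1) : ℝ)

/-- The threshold in Vojta's inequality. -/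
noncomputable def thr (n q : ℕ) : ℝ :=
  min (rho n q * (q - n - 1)) (((n : ℝ) + 1) * (q - n - 1) * (q + n) / (q * (q - 1)))

/-- The assertions on the proximity `Λ x` of the points `x` to the targets, with `H = m h(P)`. -/
def Holds {k : Type} [Field k] [NumberField k] {n q : ℕ} (S : Finset (HeightOneSpectrum (𝓞 k)))
    (a : Fin q → Fin (n + 1) → k) (Λ : (Fin n → k) → ℝ) : Prop :=
  ∀ ε : ℝ, 0 < ε → ∃ C : ℝ, ∀ x : Fin n → k, (∀ i, lin (a i) (point x) ≠ 0) →
    ∀ (m : ℕ) (L : Type) [Field L] [NumberField L] [Algebra k L] (y : Fin q → L), 1 ≤ m →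
      IsAbove a m x y → ∀ H : ℝ, H = m * height k y →
        Λ x ≤ rho n q * defect S y + ε * H + C ∧
        Λ x ≤ ((n : ℝ) + 1) * (1 - n / (q - 1)) * H + n * (n + 1) / (q * (q - 1)) * defect S y +
          ε * H + C ∧
        (thr n q * H ≤ Λ x →
          (m * (q - n - 1) - q) * height k y + proximity S y ≤ logDisc k L + ε * H + C) ∧
        (((n : ℝ) + 1) * H ≤ Λ x →
          q * (m - 1) * height k y + proximity S y ≤ logDisc k L + ε * H + C)

/-- closed balls of radius `r ≤ 1` have measure at most `C r ^ n` -/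
def Balls {F : Type} [MetricSpace F] [MeasurableSpace F] (μ : Measure F) (n : ℝ) : Prop :=
  ∃ C : ℝ, ∀ (a : F) (r : ℝ), 0 < r → r ≤ 1 →
    μ (Metric.closedBall a r) ≤ ENNReal.ofReal (C * r ^ n)

theorem rho_ge {n q : ℕ} (hn : 1 ≤ n) (hq : n + 1 ≤ q) : (n : ℝ) + 1 ≤ rho n q * q := by
  have hc0 : (0 : ℝ) < (q.choose (n + 1) : ℝ) := by exact_mod_cast Nat.choose_pos hq
  have h1 : (q - n).choose (n + 1) ≤ (q - 1).choose (n + 1) :=
    Nat.choose_le_choose _ (by omega)
  have h2 : (q - 1).choose (n + 1) * q = q.choose (n + 1) * (q - (n + 1)) := by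
    have := Nat.choose_mul_succ_eq (q - 1) (n + 1)
    rwa [Nat.sub_add_cancel (by omega : 1 ≤ q)] at this
  have h3 : ((q - 1).choose (n + 1) : ℝ) * q = q.choose (n + 1) * (q - (n + 1)) := by
    have h4 : (((q - 1).choose (n + 1) * q : ℕ) : ℝ) = ((q.choose (n + 1) * (q - (n + 1)) : ℕ) : ℝ) := by
      exact_mod_cast h2
    push_cast [Nat.cast_sub hq] at h4
    exact h4
  have h5 : ((q - n).choose (n + 1) : ℝ) ≤ (q - 1).choose (n + 1) := by exact_mod_cast h1
  have hq0 : (0 : ℝ) ≤ q := Nat.cast_nonneg q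
  unfold rho
  rw [sub_mul, one_mul, le_sub_iff_add_le, ← le_sub_iff_add_le', div_mul_eq_mul_div,
    div_le_iff₀ hc0]
  have h6 := mul_le_mul_of_nonneg_right h5 hq0
  rw [h3] at h6
  linarith

open Pool.Agent.X123.MT in
open Pool.Agent.Results.MP_9ec3f0_nt.HyperplaneExceptions (expo) in
theorem holds_of_generic {k : Type} [Field k] [NumberField k]
    (S : Finset (HeightOneSpectrum (𝓞 k))) (n q : ℕ) (hn : 1 ≤ n) (hq : n + 1 ≤ q)
    (a : Fin q → Fin (n + 1) → k)
    (ha : ∀ I : Finset (Fin q), I.card = n + 1 → LinearIndependent k (fun i : I => a i))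
    {Y : Type*} [MeasurableSpace Y] {μ : Measure Y} {L : (Fin n → k) → Y → ℝ}
    (hL : Generic μ L) : ∀ᵐ y ∂μ, Holds S a (fun x => L x y) := by
  have hnR : (1 : ℝ) ≤ n := by exact_mod_cast hn
  have hqR : (n : ℝ) + 1 ≤ q := by exact_mod_cast hq
  have hq0 : (0 : ℝ) < q := by linarith
  have hq1 : (0 : ℝ) < (q : ℝ) - 1 := by linarith
  have hρ := rho_ge hn hq
  have hρ0 : 0 < rho n q := by
    by_contra h
    push Not at h
    have := mul_nonpos_of_nonpos_of_nonneg h hq0.le
    linarith
  obtain ⟨s, hs⟩ : ∃ s : ℝ, s = (n : ℝ) * (n + 1) / (q * (q - 1)) := ⟨_, rfl⟩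
  have hs0 : 0 < s := by rw [hs]; positivity
  have hsq : s * q = n * (n + 1) / (q - 1) := by rw [hs]; field_simp
  have hsq1 : s * q ≤ n + 1 := by
    rw [hsq, div_le_iff₀ hq1]
    nlinarith
  obtain ⟨C1, hC1⟩ := height_le hq a ha
  have hw : ∀ x : Fin n → k, 0 ≤ Height.logHeight (aff x) := fun x => Height.logHeight_nonneg _
  have H0 : ∀ᵐ y ∂μ, ∀ ε : ℝ, 0 < ε → ∃ C : ℝ,
      ∀ x ∈ {x : Fin n → k | ∀ i, Pool.Agent.H57R3.VJ.lin (a i) (aff x) ≠ 0},
      L x y ≤ ((n : ℝ) + 1 + ε) * Height.logHeight (aff x) + C := by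
    refine hL _ _ _ (fun x _ => hw x) (by positivity) ?_
    have h1 := cnt_E hn hq a ha S (θ := q) (-1) hq0.le
      {x : Fin n → k | ∀ i, Pool.Agent.H57R3.VJ.lin (a i) (aff x) ≠ 0} (fun x hx => ⟨hx, 1, k,
        inferInstance, inferInstance, inferInstance,
        fun i => Pool.Agent.H57R3.VJ.lin (a i) (aff x), 1, one_ne_zero, one_ne_zero,
        fun i => by simp, by
          have h2 := Pool.Agent.TH905.VF.prox_nonneg (k := k) (L := k) S
            (fun i => Pool.Agent.H57R3.VJ.lin (a i) (aff x)) hx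
          have h3 : Pool.Agent.TH905.VF.ld k k = 0 := by
            unfold Pool.Agent.TH905.VF.ld
            rw [Module.finrank_self]
            simp
          rw [h3]
          push_cast
          linarith⟩)
    refine h1.mono subset_rfl ?_
    refine (min_le_right _ _).trans ?_
    rw [sub_self, mul_zero, zero_div, sub_zero, mul_one]
  have H1 : ∀ᵐ y ∂μ, ∀ J j : ℕ, j ≤ J → ∀ ε : ℝ, 0 < ε → ∃ C : ℝ, ∀ (x : Fin n → k) (N : ℝ),
      Above a S x N → N < ((q : ℝ) - q * j / J) * Height.logHeight (aff x) →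
      L x y ≤ (max 0 (expo n q ((q : ℝ) - q * j / J)) + ε) * Height.logHeight (aff x) + C := by
    rw [ae_all_iff]
    intro J
    rw [ae_all_iff]
    intro j
    by_cases hj : j ≤ J
    · obtain ⟨θ, hθ⟩ : ∃ θ : ℝ, θ = (q : ℝ) - q * j / J := ⟨_, rfl⟩
      have hθ0 : 0 ≤ θ := by
        rw [hθ, sub_nonneg]
        rcases Nat.eq_zero_or_pos J with h | h
        · subst h
          simp
        · have hJ : (0 : ℝ) < J := by exact_mod_cast h
          rw [div_le_iff₀ hJ]
          exact mul_le_mul_of_nonneg_left (by exact_mod_cast hj) hq0.le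
      have hcnt := cnt_E hn hq a ha S (-(θ * C1)) hθ0
        {x : Fin n → k | ∃ N, Above a S x N ∧ N < θ * Height.logHeight (aff x)} (by
          rintro x ⟨N, ⟨hx, m, F, i1, i2, i3, y, t, hm, ht, hy, hN⟩, hx2⟩
          refine ⟨hx, m, F, i1, i2, i3, y, t, hm, ht, hy, ?_⟩
          have h1 := Pool.Agent.TH905.VF.ht_pow (k := k) m _ y t ht hy
          have h2 := (hC1 (aff x)).1
          rw [← h1] at h2
          have h3 := mul_le_mul_of_nonneg_left h2 hθ0
          rw [hN] at hx2
          linarith)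
      have h1 := hL _ _ (max 0 (expo n q θ)) (fun x _ => hw x) (le_max_left _ _)
        (hcnt.mono subset_rfl (le_max_right _ _))
      filter_upwards [h1] with y hy _ ε hε
      obtain ⟨C, hC⟩ := hy ε hε
      refine ⟨C, fun x N hx hx2 => ?_⟩
      rw [← hθ] at hx2 ⊢
      exact hC x ⟨N, hx, hx2⟩
    · exact Filter.Eventually.of_forall fun y h => absurd h hj
  filter_upwards [H0, H1] with y h0 h1 ε hε
  -- the defect is nonnegative
  have hN0 : ∀ p : (Fin n → k) × ℝ, Above a S p.1 p.2 → 0 ≤ p.2 := by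
    rintro ⟨x, N⟩ ⟨hx, m, F, i1, i2, i3, y, t, hm, ht, hy, hN⟩
    simp only at hN hx ⊢
    have hyne : ∀ i, y i ≠ 0 := by
      intro i h0
      have h3 := hy i
      simp only at h3
      rw [h0, zero_pow hm] at h3
      have h4 : algebraMap k F (Pool.Agent.H57R3.VJ.lin (a i) (aff x)) ≠ 0 := by
        rw [Ne, map_eq_zero]
        exact hx i
      exact mul_ne_zero ht h4 h3.symm
    have h3 := Pool.Agent.TH905.VF.key' (k := k) (by omega) m hm
      (fun i => Pool.Agent.H57R3.VJ.lin (a i) (aff x)) y hyne t ht hy S ∅ (by simp)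
    rw [Finset.sum_empty] at h3
    rw [hN]
    linarith
  have hlines : ∀ s' : ℝ, 0 < s' → ∀ e : ℝ, 0 < e → (n : ℝ) + 1 ≤ e →
      (∀ j J : ℕ, j ≤ J → max 0 (expo n q ((q : ℝ) - q * j / J)) ≤ e - s' * (q * j / J)) →
      ∀ ε : ℝ, 0 < ε → ∃ C : ℝ, ∀ p : (Fin n → k) × ℝ, Above a S p.1 p.2 →
        L p.1 y ≤ s' * p.2 + (e - s' * q + ε) * Height.logHeight (aff p.1) + C := by
    intro s' hs' e he hne hle
    refine line_gen (V := (Fin n → k) × ℝ) (fun p => Above a S p.1 p.2) (fun p => p.2)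
      (fun p => Height.logHeight (aff p.1)) (fun p => L p.1 y) (fun p => hw _) hq0.le he hs' hN0
      (fun ε' hε' => ?_) (fun J j hj ε' hε' => ?_)
    · obtain ⟨C, hC⟩ := h0 ε' hε'
      refine ⟨C, fun p hp => (hC p.1 hp.1).trans ?_⟩
      have := mul_le_mul_of_nonneg_right (add_le_add_left hne ε') (hw p.1)
      linarith
    · obtain ⟨C, hC⟩ := h1 J j hj ε' hε'
      refine ⟨C, fun p hp hp2 => (hC p.1 p.2 hp hp2).trans ?_⟩
      have := mul_le_mul_of_nonneg_right (add_le_add_left (hle j J hj) ε') (hw p.1)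
      linarith
  have hjJ : ∀ j J : ℕ, j ≤ J → (j : ℝ) / J ≤ 1 ∧ 0 ≤ (j : ℝ) / J := by
    intro j J hj
    refine ⟨?_, by positivity⟩
    rcases Nat.eq_zero_or_pos J with h | h
    · subst h
      simp
    · rw [div_le_one (by exact_mod_cast h)]
      exact_mod_cast hj
  obtain ⟨μ0, hμ0⟩ : ∃ μ0 : ℝ, μ0 = min 1 (min (rho n q) s) := ⟨_, rfl⟩
  have hμpos : 0 < μ0 := by
    rw [hμ0]
    exact lt_min one_pos (lt_min hρ0 hs0)
  have hμ1 : μ0 ≤ 1 := by rw [hμ0]; exact min_le_left _ _
  have hμρ : μ0 ≤ rho n q := by rw [hμ0]; exact (min_le_right _ _).trans (min_le_left _ _)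
  have hμs : μ0 ≤ s := by rw [hμ0]; exact (min_le_right _ _).trans (min_le_right _ _)
  obtain ⟨Ca, hCa⟩ := hlines (rho n q) hρ0 (rho n q * q) (by positivity) hρ (by
    intro j J hj
    obtain ⟨h2, h3⟩ := hjJ j J hj
    have h4 : (q : ℝ) * j / J = q * (j / J) := by ring
    rw [h4]
    refine max_le ?_ ((min_le_left _ _).trans (le_of_eq ?_))
    · have : 0 ≤ rho n q * q * (1 - j / J) := by
        have : 0 ≤ 1 - (j : ℝ) / J := by linarith
        positivity
      linarith
    · unfold rho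
      ring) (ε * μ0) (by positivity)
  obtain ⟨Cb, hCb⟩ := hlines s hs0 ((n : ℝ) + 1) (by positivity) le_rfl (by
    intro j J hj
    obtain ⟨h2, h3⟩ := hjJ j J hj
    have h4 : (q : ℝ) * j / J = q * (j / J) := by ring
    rw [h4]
    refine max_le ?_ ((min_le_right _ _).trans (le_of_eq ?_))
    · have : s * (q * (j / J)) ≤ s * q := by
        have := mul_le_mul_of_nonneg_left h2 (by positivity : 0 ≤ s * q)
        linarith
      linarith
    · rw [hs]
      field_simp
      ring) (ε * μ0) (by positivity)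
  obtain ⟨E, hE⟩ : ∃ E : ℝ, E = (n : ℝ) + 1 - s * q := ⟨_, rfl⟩
  have hE0 : 0 ≤ E := by rw [hE]; linarith
  obtain ⟨C, hC⟩ : ∃ C : ℝ, C = |Ca| + |Cb| + (E + ε * μ0) * |C1| := ⟨_, rfl⟩
  have hC0 : 0 ≤ C := by rw [hC]; positivity
  refine ⟨C / μ0, fun x hx m F _ _ _ z hm hz H hH => ?_⟩
  obtain ⟨t, ht, hz⟩ := hz
  obtain ⟨N, hN⟩ : ∃ N : ℝ, N = defect S z := ⟨_, rfl⟩
  have hab : Above a S x N := ⟨hx, m, F, inferInstance, inferInstance, inferInstance, z, t,
    by omega, ht, hz, hN⟩
  have hNn : 0 ≤ N := hN0 (x, N) hab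
  have hHe : H = Height.logHeight (fun i => Pool.Agent.H57R3.VJ.lin (a i) (aff x)) := by
    rw [hH]
    exact Pool.Agent.TH905.VF.ht_pow (k := k) m _ z t ht hz
  have hH0 : 0 ≤ H := by rw [hHe]; exact Height.logHeight_nonneg _
  have hwH : Height.logHeight (aff x) ≤ H + |C1| := by
    have h2 := (hC1 (aff x)).1
    have h3 := le_abs_self C1
    rw [hHe]
    linarith
  have hCC : C ≤ C / μ0 := by
    rw [le_div_iff₀ hμpos]
    nlinarith
  have hab1 := hCa (x, N) hab
  have hab2 := hCb (x, N) hab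
  simp only at hab1 hab2
  have hεμ : ε * μ0 ≤ ε := by nlinarith
  have hεμ0 : 0 < ε * μ0 := by positivity
  -- the two inequalities with `ε μ0`
  have I1 : L x y ≤ rho n q * N + ε * μ0 * H + C := by
    have h2 : (rho n q * q - rho n q * q + ε * μ0) * Height.logHeight (aff x) ≤
        ε * μ0 * (H + |C1|) := by
      rw [sub_self, zero_add]
      exact mul_le_mul_of_nonneg_left hwH hεμ0.le
    have h3 := le_abs_self Ca
    have h4 := abs_nonneg Cb
    have h5 : 0 ≤ E * |C1| := by positivity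
    rw [hC]
    linarith
  have I2 : L x y ≤ s * N + E * H + ε * μ0 * H + C := by
    have h2 : ((n : ℝ) + 1 - s * q + ε * μ0) * Height.logHeight (aff x) ≤
        (E + ε * μ0) * (H + |C1|) := by
      rw [← hE]
      exact mul_le_mul_of_nonneg_left hwH (by positivity)
    have h3 := le_abs_self Cb
    have h4 := abs_nonneg Ca
    rw [hC]
    linarith
  have hεH : ε * μ0 * H ≤ ε * H := mul_le_mul_of_nonneg_right hεμ hH0
  have hEe : E = ((n : ℝ) + 1) * (1 - n / (q - 1)) := by
    rw [hE, hsq]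
    field_simp
  have hdef : logDisc k F + q * height k z - proximity S z = N := by rw [hN]; rfl
  have hmH : (m : ℝ) * (q - n - 1) * height k z = (q - n - 1) * H := by rw [hH]; ring
  have hCμ : μ0 * (C / μ0) = C := by field_simp
  refine ⟨?_, ?_, fun h => ?_, fun h => ?_⟩
  · rw [← hN]
    linarith
  · rw [← hN, ← hEe, ← hs]
    linarith
  · suffices hN' : ((q : ℝ) - n - 1) * H ≤ N + ε * H + C / μ0 by
      have h2 : (m * ((q : ℝ) - n - 1) - q) * height k z =
          (q - n - 1) * H - q * height k z := by rw [← hmH]; ring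
      rw [h2]
      linarith
    by_contra hlt
    push Not at hlt
    have hgap : 0 < ((q : ℝ) - n - 1) * H - N - ε * H - C / μ0 := by linarith
    rcases le_total (rho n q * ((q : ℝ) - n - 1))
      (((n : ℝ) + 1) * (q - n - 1) * (q + n) / (q * (q - 1))) with hle | hle
    · have h2 : thr n q = rho n q * ((q : ℝ) - n - 1) := min_eq_left hle
      rw [h2] at h
      have h3 := mul_pos hρ0 hgap
      have h4 : μ0 * (ε * H + C / μ0) ≤ rho n q * (ε * H + C / μ0) :=
        mul_le_mul_of_nonneg_right hμρ (by positivity)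
      have h5 : μ0 * (ε * H + C / μ0) = ε * μ0 * H + C := by rw [mul_add, hCμ]; ring
      nlinarith
    · have h2 : thr n q = ((n : ℝ) + 1) * (q - n - 1) * (q + n) / (q * (q - 1)) :=
        min_eq_right hle
      rw [h2] at h
      have h3 := mul_pos hs0 hgap
      have h4 : μ0 * (ε * H + C / μ0) ≤ s * (ε * H + C / μ0) :=
        mul_le_mul_of_nonneg_right hμs (by positivity)
      have h5 : μ0 * (ε * H + C / μ0) = ε * μ0 * H + C := by rw [mul_add, hCμ]; ring
      have h6 : ((n : ℝ) + 1) * (q - n - 1) * (q + n) / (q * (q - 1)) * H =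
          s * (((q : ℝ) - n - 1) * H) + E * H := by
        rw [hE, hs]
        field_simp
        ring
      rw [h6] at h
      nlinarith
  · suffices hN' : (q : ℝ) * H ≤ N + ε * H + C / μ0 by
      have h2 : (q : ℝ) * (m - 1) * height k z = q * H - q * height k z := by rw [hH]; ring
      rw [h2]
      linarith
    by_contra hlt
    push Not at hlt
    have hgap : 0 < (q : ℝ) * H - N - ε * H - C / μ0 := by linarith
    have h3 := mul_pos hs0 hgap
    have h4 : μ0 * (ε * H + C / μ0) ≤ s * (ε * H + C / μ0) :=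
      mul_le_mul_of_nonneg_right hμs (by positivity)
    have h5 : μ0 * (ε * H + C / μ0) = ε * μ0 * H + C := by rw [mul_add, hCμ]; ring
    have h6 : ((n : ℝ) + 1) * H = s * (q * H) + E * H := by rw [hE]; ring
    rw [h6] at h
    nlinarith

theorem thr_lt {n q : ℕ} (hn : 1 ≤ n) (hq : n + 1 ≤ q) : thr n q < n + 1 := by
  have hnR : (1 : ℝ) ≤ n := by exact_mod_cast hn
  have hqR : (n : ℝ) + 1 ≤ q := by exact_mod_cast hq
  have hq0 : (0 : ℝ) < q := by linarith
  have hq1 : (0 : ℝ) < (q : ℝ) - 1 := by linarith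
  refine (min_le_right _ _).trans_lt ?_
  rw [div_lt_iff₀ (by positivity)]
  have h1 : ((n : ℝ) + 1) * (q - n - 1) * (q + n) =
      (n + 1) * (q * (q - 1)) - (n + 1) * (n * (n + 1)) := by ring
  rw [h1]
  have : 0 < ((n : ℝ) + 1) * (n * (n + 1)) := by positivity
  linarith

theorem balls_pi (n : ℕ) : Balls (volume : Measure (Fin n → ℝ)) n := by
  refine ⟨2 ^ n, fun a r hr _ => ?_⟩
  rw [Real.volume_pi_closedBall a hr.le, Fintype.card_fin, mul_pow, Real.rpow_natCast]

theorem generic_real (V : Type) [Countable V] (n : ℕ) (hn : 0 < (n : ℝ))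
    (σ : V → (Fin n → ℝ)) : Pool.Agent.X123.MT.Generic (volume : Measure (Fin n → ℝ))
      (fun (x : V) ξ => (n : ℝ) * max 0 (Real.log (1 / dist ξ (σ x)))) :=
  Pool.Agent.X123.MT.generic_one (V := V) (F := Fin n → ℝ) volume hn (balls_pi n) σ

/-- **Vojta's inequality for the algebraic points of Fermat intersections near almost every target.**
Let `k` be a number field, `S` a finite set of primes of `k`, `a_0, …, a_{q-1}` linear forms in
`n + 1 ≥ 2` variables over `k`, any `n + 1` of them linearly independent, `q ≥ n + 1`. We consider ALL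
points `P` of ALL `X_m`, `m ≥ 1`, above the points `(1 : x)`, `x ∈ k ^ n`, off the hyperplanes.

(1) Let `k → ℝ` be an embedding. For almost all `ξ ∈ ℝ ^ n` and all `ε > 0` there is `C` such that
`Λ(x) = n log⁺ (1 / |ξ - x|)` satisfies for all these `P`, with `H = m h(P)`:
`Λ(x) ≤ ρ (d_k(P) + q h(P) - λ_{D, S}(P)) + ε H + C`;
`Λ(x) ≤ (n + 1) (1 - n / (q - 1)) H + n (n + 1) / (q (q - 1)) (d_k(P) + q h(P) - λ_{D, S}(P)) + ε H + C`;
if `Λ(x) ≥ thr H`, Vojta's inequality `h_K(P) + λ_{D, S}(P) ≤ d_k(P) + ε H + C` (`thr < n + 1`, the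
exponent of Dirichlet's theorem);
if `Λ(x) ≥ (n + 1) H`, the inequality `q (m - 1) h(P) + λ_{D, S}(P) ≤ d_k(P) + ε H + C`.

(2) Let `F_i` be finitely many metric spaces with `σ`-finite Borel measures whose balls of radius
`r ≤ 1` have measure at most `C r ^ (n_i)`, and `σ_i : k ^ n → F_i` arbitrary maps, for instance
`F_i = k_v ^ n` and `n_i = n [k_v : ℚ_v]`. The same holds for almost all `ξ` in the product of the
`F_i`, with `Λ(x) = ∑ n_i log⁺ (1 / |ξ_i - σ_i(x)|)`. -/
theorem result (k : Type) [Field k] [NumberField k] (S : Finset (HeightOneSpectrum (𝓞 k)))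
    (n q : ℕ) (hn : 1 ≤ n) (hq : n + 1 ≤ q) (a : Fin q → Fin (n + 1) → k)
    (ha : ∀ I : Finset (Fin q), I.card = n + 1 → LinearIndependent k (fun i : I => a i)) :
    thr n q < n + 1 ∧
    (∀ φ : k →+* ℝ, ∀ᵐ ξ : Fin n → ℝ,
      Holds S a (fun x => n * max 0 (Real.log (1 / dist ξ (fun j => φ (x j)))))) ∧
    ∀ (ι : Type) [Fintype ι] (F : ι → Type) [∀ i, MetricSpace (F i)]
      [∀ i, MeasurableSpace (F i)] [∀ i, BorelSpace (F i)] (μ : ∀ i, Measure (F i))
      [∀ i, SigmaFinite (μ i)] (e : ι → ℝ) (σ : ∀ i, (Fin n → k) → F i), (∀ i, 0 < e i) →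
      (∀ i, Balls (μ i) (e i)) →
      ∀ᵐ ξ ∂(Measure.pi μ),
        Holds S a (fun x => ∑ i, e i * max 0 (Real.log (1 / dist (ξ i) (σ i x)))) := by
  have := Pool.Agent.X123.MT.countable_K k
  have hn0 : (0 : ℝ) < n := by exact_mod_cast hn
  refine ⟨thr_lt hn hq, fun φ => ?_, fun ι _ F _ _ _ μ _ e σ he hμ => ?_⟩
  · have h1 := generic_real (Fin n → k) n hn0 (fun x j => φ (x j))
    exact holds_of_generic S n q hn hq a ha h1
  · have h1 : Pool.Agent.X123.MT.Generic (Measure.pi μ)
        (fun (x : Fin n → k) ξ => ∑ i, e i * max 0 (Real.log (1 / dist (ξ i) (σ i x)))) :=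
      Pool.Agent.X123.MT.generic_pi μ he hμ σ
    exact holds_of_generic S n q hn hq a ha h1

end Pool.Agent.Results.MP_651af7_nt.FermatPointsNearTargets
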