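import Mathlib
import Pool.Agent.Y734.Fin2
import Pool.Agent.Y734.BR2.Main
import Pool.Agent.Y734.HYP2.Main
import Pool.Agent.Y734.USST.Main
import Pool.Agent.Y734.B.Main
import Pool.Agent.Y734.GROW.Main
import Pool.Agent.Y734.DIM.Main
import Pool.Agent.TH551.SU.Sst

/-!
# Points of degree at most two of the plane and lines in general position

`X` is the projective plane over `ℚ`, `D = ∑ D_i` a sum of `q` lines over `ℚ` in general position
(any `q`), `S` a finite set of places of `ℚ` and `r = 2`. For points of degree at most two,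
`d(x) ≤ 2 h(x) + O(1)`, so Vojta's conjecture implies

`∑_{v ∈ S} λ_{D,v}(x) ≤ (5 + ε) h(x) + C`

outside of a proper closed subset `Z`. We prove this inequality with `6 + ε` in the place of
`5 + ε`, for all `q`, all `S`, all `ε` and all points of degree at most two off `D` outside of an
explicit finite set of lines, which depends on the lines `D_i` only (not on `S` or `ε`): the lines,
not in `D`, which contain at least three of the double points `D_i ∩ D_j` of `D`.

The proof: Schmidt's subspace theorem for the entries of the symmetric matrices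
`x x'ᵀ + x' xᵀ` (`x'` the conjugate of `x`) and for their products (filtrations of the ring of
functions on the symmetric square of the plane, in the manner of Evertse and Ferretti), for a
sequence of points which leaves every curve, together with a study of the subspaces
of linear forms which are small at both conjugates.
-/

set_option autoImplicit false

namespace Pool.Agent.Results.MP_651af7_nt.QuadraticPlane

open NumberField IsDedekindDomain

variable {L : Type} [Field L] [NumberField L] {n : ℕ}

/-- The local Weil function of the divisor `F = 0`, `F` a form of degree `d` over `ℚ`, at the point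
with homogeneous coordinates `x` over `L`, for the absolute value `a` of `L`. -/
noncomputable def weil (a : L → ℝ) (F : MvPolynomial (Fin (n + 1)) ℚ) (d : ℕ)
    (x : Fin (n + 1) → L) : ℝ :=
  Real.log ((⨆ j, a (x j)) ^ d / a (MvPolynomial.aeval x F))

/-- The proximity function `∑_{v ∈ S} λ_{D,v}(x)`, with absolute normalisation, where `S` consists
of the archimedean place of `ℚ` and of the primes in `S`: the sum over all infinite places of `L`
and over the primes of `L` above the primes in `S`, divided by `[L : ℚ]`. -/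
noncomputable def proximity (S : Finset ℕ) (F : MvPolynomial (Fin (n + 1)) ℚ) (d : ℕ)
    (x : Fin (n + 1) → L) : ℝ :=
  ((∑ w : InfinitePlace L, w.mult * weil w F d x) +
    ∑ᶠ v ∈ {v : HeightOneSpectrum (𝓞 L) | ∃ p ∈ S, (p : 𝓞 L) ∈ v.asIdeal},
      weil (FinitePlace.mk v) F d x) / Module.finrank ℚ L

/-- The absolute logarithmic height. -/
noncomputable def height (x : Fin (n + 1) → L) : ℝ :=
  Height.logHeight x / Module.finrank ℚ L

/-- The linear form with coefficients `l`. -/
noncomputable def lin (l : Fin (n + 1) → ℚ) : MvPolynomial (Fin (n + 1)) ℚ :=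
  ∑ j, MvPolynomial.C (l j) * MvPolynomial.X j

/-- The pairs `i < j` such that the double point of `D` which is common to the lines
`lin (H i) = 0` and `lin (H j) = 0` lies on the line `lin ℓ = 0`. -/
def doublePointsOn {q : ℕ} (H : Fin q → Fin 3 → ℚ) (ℓ : Fin 3 → ℚ) : Set (Fin q × Fin q) :=
  {p | p.1 < p.2 ∧ ∀ y : Fin 3 → ℚ, ∑ a, H p.1 a * y a = 0 → ∑ a, H p.2 a * y a = 0 →
    ∑ a, ℓ a * y a = 0}

/-- Let `H i`, `i < q`, be the coefficients of `q` linear forms over `ℚ` in three variables, at most
three of which are always linearly independent, and let `D` be the sum of the lines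
`lin (H i) = 0`.
There is a finite set `Λ` of lines over `ℚ`, each of which contains the double points of `D` for
at least three of the pairs `i < j`, such that for every finite set `S` of primes and every `ε > 0`
there is a constant `C` with
`∑_{v ∈ S ∪ {∞}} λ_{D,v}(x) ≤ (6 + ε) h(x) + C`
for every number field `L` of degree at most two and every `x ∈ ℙ²(L)` off `D` and off the lines
in `Λ`. -/
theorem result (q : ℕ) (H : Fin q → Fin 3 → ℚ)
    (hH : ∀ I : Finset (Fin q), I.card ≤ 3 → LinearIndependent ℚ (fun i : I => H i)) :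
    ∃ Λ : Finset (Fin 3 → ℚ), (∀ ℓ ∈ Λ, ℓ ≠ 0 ∧ 3 ≤ (doublePointsOn H ℓ).ncard) ∧
      ∀ S : Finset ℕ, (∀ p ∈ S, p.Prime) → ∀ ε : ℝ, 0 < ε →
        ∃ C : ℝ, ∀ (L : Type) [Field L] [NumberField L], Module.finrank ℚ L ≤ 2 →
          ∀ x : Fin 3 → L, x ≠ 0 → MvPolynomial.aeval x (∏ i, lin (n := 2) (H i)) ≠ 0 →
            (∀ ℓ ∈ Λ, MvPolynomial.aeval x (lin (n := 2) ℓ) ≠ 0) →
              proximity (n := 2) S (∏ i, lin (H i)) q x ≤ (6 + ε) * height (n := 2) x + C := by
  classical
  have hgp : Pool.Agent.Y734.GenPos H := by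
    intro i j k h1 h2 h3
    have hc : ({i, j, k} : Finset (Fin q)).card = 3 := by
      rw [Finset.card_insert_of_notMem (by simp [h1, h2]),
        Finset.card_insert_of_notMem (by simp [h3]), Finset.card_singleton]
    have h4 := hH {i, j, k} hc.le
    let f : Fin 3 → ({i, j, k} : Finset (Fin q)) :=
      ![⟨i, by simp⟩, ⟨j, by simp⟩, ⟨k, by simp⟩]
    have hf : Function.Injective f := by
      intro a b hab
      have h5 : ((f a : ({i, j, k} : Finset (Fin q))) : Fin q) = f b := congrArg Subtype.val hab
      fin_cases a <;> fin_cases b <;> simp_all [f]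
    have h6 := h4.comp f hf
    convert h6 using 1
    funext a
    fin_cases a <;> rfl
  have habs : Pool.Agent.Y734.B.AbsStmt2 :=
    Pool.Agent.Y734.B.abs2 Pool.Agent.Y734.GROW.grow Pool.Agent.Y734.DIM.dim
      Pool.Agent.Y734.DIM.dim3
  have hyp : Pool.Agent.Y734.B.HypStmt2 :=
    Pool.Agent.Y734.HYP2.hyp2 (Pool.Agent.Y734.USST.usst Pool.Agent.TH551.SU.sst) habs
  obtain ⟨Λ, hΛ, h⟩ := Pool.Agent.Y734.B.top_of2 Pool.Agent.Y734.BR2.br2 hyp q H hgp
  refine ⟨Λ, fun ℓ hℓ => ⟨(hΛ ℓ hℓ).1, (hΛ ℓ hℓ).2.trans ?_⟩, h⟩
  rw [← Set.ncard_coe_finset]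
  refine Set.ncard_le_ncard ?_ (Set.toFinite _)
  rintro ⟨i, j⟩ hp
  rw [Finset.mem_coe, Pool.Agent.Y734.B.dbl, Finset.mem_filter] at hp
  obtain ⟨-, hij, hdet⟩ := hp
  refine ⟨hij, fun y hy1 hy2 => ?_⟩
  obtain ⟨v, hv0, hv⟩ := Matrix.exists_vecMul_eq_zero_iff.2 hdet
  have hv' : ∀ a, v 0 * H i a + v 1 * H j a + v 2 * ℓ a = 0 := by
    intro a
    have h3 := congrFun hv a
    simpa [Matrix.vecMul, dotProduct, Fin.sum_univ_three] using h3
  have hv2 : v 2 ≠ 0 := by
    intro h2
    have hij' : i ≠ j := hij.ne
    have hc : ({i, j} : Finset (Fin q)).card = 2 := Finset.card_pair hij'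
    have h4 := hH {i, j} (by omega)
    let f : Fin 2 → ({i, j} : Finset (Fin q)) := ![⟨i, by simp⟩, ⟨j, by simp⟩]
    have hf : Function.Injective f := by
      intro a b hab
      have h5 : ((f a : ({i, j} : Finset (Fin q))) : Fin q) = f b := congrArg Subtype.val hab
      fin_cases a <;> fin_cases b <;> simp_all [f]
    have h6 := Fintype.linearIndependent_iff.1 (h4.comp f hf) ![v 0, v 1] (by
      rw [Fin.sum_univ_two]
      funext a
      have h7 := hv' a
      rw [h2, zero_mul, add_zero] at h7
      simpa [f] using h7)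
    apply hv0
    funext a
    fin_cases a
    · exact h6 0
    · exact h6 1
    · exact h2
  have h8 : v 2 * ∑ a, ℓ a * y a = 0 := by
    calc v 2 * ∑ a, ℓ a * y a
        = ∑ a, (v 0 * H i a + v 1 * H j a + v 2 * ℓ a) * y a -
            v 0 * ∑ a, H i a * y a - v 1 * ∑ a, H j a * y a := by
          simp only [Fin.sum_univ_three]; ring
      _ = 0 := by
          rw [hy1, hy2]
          simp [hv']
  exact (mul_eq_zero.1 h8).resolve_left hv2

end Pool.Agent.Results.MP_651af7_nt.QuadraticPlane
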