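import Pool.Agent.X236.QB.All

/-!
# Vojta's inequality with a divisor for the points of cyclic covers of the line whose branch points
have degree at most five

Let `m ≥ 2` and let `F`, `G` be binary forms over `ℤ` of degrees `q`, `e` such that `F G` has no
multiple factor. Let `X → ℙ¹` be the cyclic cover `y ^ m = F(a, b)` (a curve over `ℚ` for `m ∣ q`),
totally ramified over the zeros of `F`. Its canonical divisor is numerically the pull-back of
`q (1 - 1 / m) - 2` points of the line. Let `D` be the reduced inverse image of the zeros of `F G`.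
Then `∑_{v ∈ S ∪ {∞}} λ_{D,v}(x, y)` is at most the sum `proximity S (F G) (q + e) x` of the local
heights `λ_v(x) = - log (|F G (a, b)|_v / max (|a|_v, |b|_v) ^ (q + e))` of `x = a / b` over `v = ∞` and
the primes `v ∈ S`.

If the irreducible factors of `F` have degree at most five, the inequality
`h_K + ∑_{v ∈ S ∪ {∞}} λ_{D,v} ≤ d + c` holds for the points above all rational numbers of height at
most `B` outside a set with a power less than `B²` of elements.
-/

set_option autoImplicit false

namespace Pool.Agent.Results.MP_651af7_nt.QuinticBranchPointsProximity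

open Polynomial IntermediateField

/-- The binary form `∑ g_j X ^ j Z ^ (d - j)` of degree `d`, at the numerator and denominator of
`x`. -/
def form (g : ℤ[X]) (d : ℕ) (x : ℚ) : ℤ :=
  ∑ j ∈ Finset.range (d + 1), g.coeff j * x.num ^ j * (x.den : ℤ) ^ (d - j)

/-- The binary form of degree `q` attached to `g` has no multiple factor. -/
def Reduced (g : ℤ[X]) (q : ℕ) : Prop :=
  Squarefree (g.map (Int.castRingHom ℚ)) ∧ g.natDegree ≤ q ∧ q ≤ g.natDegree + 1

/-- The logarithmic height of a rational number. -/
noncomputable def height (x : ℚ) : ℝ := Real.log ((max x.num.natAbs x.den : ℕ) : ℝ)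

open Classical in
/-- The logarithmic discriminant of the field `ℚ(y)`. -/
noncomputable def logDisc (y : ℂ) : ℝ :=
  if _ : NumberField ℚ⟮y⟯ then
    Real.log |(NumberField.discr ℚ⟮y⟯ : ℝ)| / Module.finrank ℚ ℚ⟮y⟯ else 0

/-- The part of `n` prime to the primes in `S`. -/
def primePart (S : Finset ℕ) (n : ℕ) : ℕ :=
  ∏ p ∈ n.primeFactors.filter (fun p => p ∉ S), p ^ n.factorization p

/-- The sum of the local heights of `x = a / b` with respect to the divisor `R = 0`, `R` the form of
degree `r` attached to `g`, over the primes in `S` and the infinite place: `r h(x)` minus the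
logarithm of the part of `R(a, b)` prime to `S`. -/
noncomputable def proximity (S : Finset ℕ) (g : ℤ[X]) (r : ℕ) (x : ℚ) : ℝ :=
  r * height x - Real.log (primePart S (form g r x).natAbs)

/-- The exponent: `4 / 3` for `N ≤ 3`, `16 / 11` for `N = 4` and `25 / 14` for `N = 5`. -/
noncomputable def exponent (N : ℕ) : ℝ := max (4 / 3) ((N : ℝ) ^ 2 / (3 * N - 1))

/-- **Vojta's inequality with a divisor above almost all rational points.** Let `m ≥ 2`, `F` and `G`
binary forms of degrees `q` and `e` such that `F G` has no multiple factor, the irreducible factors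
of `F` of degree at most `N ≤ 5`. Let `S` be a finite set of primes, `c` real and `δ > 0`. Then for
all `B ≥ 1`, all rational numbers `x = a / b` of height at most `B` but at most
`C B ^ (exponent N + δ)` and all `y` with `y ^ m = F(a, b)`, `F(a, b) G(a, b) ≠ 0` satisfy
`(q (1 - 1 / m) - 2) h(x) + ∑_{v ∈ S ∪ {∞}} λ_v(x) ≤ d(ℚ(y)) + c`. -/
theorem result (m N : ℕ) (hm : 2 ≤ m) (hN : N ≤ 5) (F G : ℤ[X]) (q e : ℕ)
    (hF : F.natDegree ≤ q) (hG : G.natDegree ≤ e) (hFG : Reduced (F * G) (q + e))
    (hr : 1 ≤ q + e)
    (hfac : ∀ h : ℚ[X], Irreducible h → h ∣ F.map (Int.castRingHom ℚ) → h.natDegree ≤ N)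
    (S : Finset ℕ) (c δ : ℝ) (hδ : 0 < δ) :
    ∃ C : ℝ, ∀ B : ℝ, 1 ≤ B → ∃ T : Finset ℚ,
      (T.card : ℝ) ≤ C * B ^ (exponent N + δ) ∧
      ∀ (x : ℚ) (y : ℂ), height x ≤ Real.log B → form (F * G) (q + e) x ≠ 0 →
        y ^ m = (form F q x : ℂ) → x ∉ T →
        (q * (1 - 1 / m) - 2) * height x + proximity S (F * G) (q + e) x ≤ logDisc y + c := by
  obtain ⟨C, hC⟩ := Pool.Agent.X236.QB.general m hm N hN F G q e hF hG hFG hr hfac S c δ hδ
  refine ⟨C, fun B hB => ?_⟩
  obtain ⟨T, h1, h2⟩ := hC B hB
  refine ⟨T, h1, fun x y hx hR hy hxT => ?_⟩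
  have h3 := h2 x y hx hR hy hxT
  have h4 : (((q + e : ℕ) : ℝ) * height x -
      Real.log (primePart S (form (F * G) (q + e) x).natAbs)) +
      (q * (1 - 1 / m) - 2) * height x ≤ logDisc y + c := h3
  unfold proximity
  linarith

end Pool.Agent.Results.MP_651af7_nt.QuinticBranchPointsProximity
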